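import Pool.Agent.Lib.Tower13.Main

/-! From independent classes in the second cohomology to invariant Kummer classes. -/

open NumberField IsDedekindDomain

namespace Pool.Agent.Tower13

section sg
variable (L : Type*) [Field L]

/-- the sign character -/
def sg : ZMod 2 →+ Additive Lˣ :=
  AddMonoidHom.mk' (fun e => if e = 0 then 0 else Additive.ofMul (-1)) (by
    intro a b
    have h : ∀ e : ZMod 2, e = 0 ∨ e = 1 := by decide
    have h11 : (1 : ZMod 2) + 1 = 0 := by decide
    have h10 : (1 : ZMod 2) ≠ 0 := by decide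
    rcases h a with rfl | rfl <;> rcases h b with rfl | rfl
    · simp
    · simp
    · simp
    · simp only [h11, if_neg h10, if_true, ← ofMul_mul]
      simp)

variable {L}

theorem sg_zero : sg L 0 = 0 := map_zero _

theorem sg_one : sg L 1 = Additive.ofMul (-1) := by
  have h10 : (1 : ZMod 2) ≠ 0 := by decide
  simp [sg, h10]

theorem sg_add_self (e : ZMod 2) : sg L e + sg L e = 0 := by
  have h : ∀ e : ZMod 2, e + e = 0 := by decide
  rw [← map_add, h, map_zero]

theorem exists_sg (u : Additive Lˣ) (hu : u + u = 0) : ∃ e, u = sg L e := by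
  have h1 := congrArg (fun z => ((Additive.toMul z : Lˣ) : L)) hu
  simp only [toMul_add, Units.val_mul, toMul_zero, Units.val_one] at h1
  rcases mul_self_eq_one_iff.mp h1 with h | h
  · exact ⟨0, uext (by simpa using h)⟩
  · exact ⟨1, uext (by simpa [sg_one] using h)⟩

theorem sg_inj [CharZero L] : Function.Injective (sg L) := by
  rw [injective_iff_map_eq_zero]
  intro e he
  have h : ∀ e : ZMod 2, e = 0 ∨ e = 1 := by decide
  rcases h e with rfl | rfl
  · rfl
  · rw [sg_one] at he
    have h1 := congrArg (fun z => ((Additive.toMul z : Lˣ) : L)) he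
    simp only [toMul_ofMul, Units.val_neg, Units.val_one, toMul_zero] at h1
    norm_num at h1

theorem act_sg {G : Type*} [Group G] [MulSemiringAction G L] (g : G) (e : ZMod 2) :
    act G L g (sg L e) = sg L e := by
  have h : ∀ e : ZMod 2, e = 0 ∨ e = 1 := by decide
  rcases h e with rfl | rfl
  · simp
  · exact uext (by simp [sg_one])

theorem ord_sg [NumberField L] (w : HeightOneSpectrum (𝓞 L)) (e : ZMod 2) :
    ord w (sg L e) = 0 := by
  have h1 := congrArg (ord w) (sg_add_self (L := L) e)
  rw [map_add, map_zero] at h1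
  linarith

end sg

/-- (2b): sign valued cocycles split in the multiplicative group of `L`. -/
theorem split (hH : HasseStmt) (K L G : Type) [Field K] [NumberField K] [Field L] [NumberField L]
    [Algebra K L] [IsTotallyReal L] [Group G] [Finite G] [MulSemiringAction G L]
    [IsGaloisGroup G K L] (hG : IsPGroup 2 G) (hunr : Algebra.FormallyUnramified (𝓞 K) (𝓞 L))
    (c : G → G → ZMod 2) (hc : ∀ g h k, c h k + c g (h * k) = c (g * h) k + c g h) :
    ∃ B : G → Additive Lˣ, ∀ g h, sg L (c g h) = cob (act G L) B g h := by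
  have : Fact (Nat.Prime 2) := ⟨Nat.prime_two⟩
  obtain ⟨k, hk⟩ := IsPGroup.iff_card.mp hG
  refine split_aux hH L k G K hk hunr (fun g h => sg L (c g h)) (fun w g h => ord_sg w _) ?_
  intro g h j
  rw [act_sg, ← map_add, ← map_add, hc, add_comm]

/-- Kummer step: independent cohomology classes give independent invariant Kummer classes. -/
theorem kummer (hH : HasseStmt) (K L G : Type) [Field K] [NumberField K] [Field L] [NumberField L]
    [Algebra K L] [IsTotallyReal L] [Group G] [Finite G] [MulSemiringAction G L]
    [IsGaloisGroup G K L] (hG : IsPGroup 2 G) (hunr : Algebra.FormallyUnramified (𝓞 K) (𝓞 L))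
    {ι : Type*} (c : ι → G → G → ZMod 2)
    (hc : ∀ i g h k, c i h k + c i g (h * k) = c i (g * h) k + c i g h)
    (hind : ∀ T : Finset ι, T.Nonempty → ∀ ψ : G → ZMod 2,
      ¬ ∀ g h, ∑ i ∈ T, c i g h = ψ g + ψ h - ψ (g * h)) :
    ∃ a : ι → L, (∀ i, a i ≠ 0) ∧ (∀ i (g : G), ∃ w : L, g • a i = a i * w ^ 2) ∧
      ∀ T : Finset ι, T.Nonempty → ∀ (k : K) (y : L), ∏ i ∈ T, a i ≠ algebraMap K L k * y ^ 2 := by
  have hGal : IsGaloisGroup G K L := inferInstance
  have hfaith : FaithfulSMul G L := hGal.faithful
  have hcomm : SMulCommClass G K L := hGal.commutes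
  choose B hB using fun i => split hH K L G hG hunr (c i) (hc i)
  have h1 : ∀ i, ∃ a : Additive Lˣ, ∀ g, B i g + B i g = act G L g a - a := by
    intro i
    obtain ⟨a, ha⟩ := h90 (⊤ : Subgroup G) (fun g => B i g + B i g) (by
      intro n _ m _
      have e1 := sg_add_self (L := L) (c i n m)
      rw [hB] at e1
      simp only [cob] at e1
      rw [map_add]
      linear_combination (norm := abel) - e1)
    exact ⟨a, fun g => ha g trivial⟩
  choose a ha using h1
  refine ⟨fun i => ((Additive.toMul (a i) : Lˣ) : L), fun i => Units.ne_zero _, fun i g => ?_, ?_⟩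
  · refine ⟨((Additive.toMul (B i g) : Lˣ) : L), ?_⟩
    have e1 : act G L g (a i) = a i + (B i g + B i g) := by
      linear_combination (norm := abel) - ha i g
    have e2 := congrArg (fun z => ((Additive.toMul z : Lˣ) : L)) e1
    simp only [act_val, toMul_add, Units.val_mul] at e2
    rw [e2]
    ring
  · intro T hT k y hky
    have hne : ∏ i ∈ T, ((Additive.toMul (a i) : Lˣ) : L) ≠ 0 :=
      Finset.prod_ne_zero_iff.mpr (fun i _ => Units.ne_zero _)
    rw [hky] at hne
    have hk0 : algebraMap K L k ≠ 0 := left_ne_zero_of_mul hne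
    have hy0 : y ≠ 0 := fun h => hne (by simp [h])
    let κ : Additive Lˣ := Additive.ofMul (Units.mk0 _ hk0)
    let η : Additive Lˣ := Additive.ofMul (Units.mk0 _ hy0)
    have hsum : ∑ i ∈ T, a i = κ + (η + η) := by
      apply uext
      simp only [toMul_sum, Units.coe_prod, toMul_add, Units.val_mul, κ, η, toMul_ofMul,
        Units.val_mk0]
      rw [hky]
      ring
    have hκ : ∀ g, act G L g κ = κ := fun g => uext (by
      simp only [act_val, κ, toMul_ofMul, Units.val_mk0]
      exact smul_algebraMap g k)
    have h2 : ∀ g, ∃ e, ∑ i ∈ T, B i g - (act G L g η - η) = sg L e := by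
      intro g
      apply exists_sg
      have e1 : ∑ i ∈ T, (B i g + B i g) = ∑ i ∈ T, (act G L g (a i) - a i) :=
        Finset.sum_congr rfl (fun i _ => ha i g)
      rw [Finset.sum_add_distrib, Finset.sum_sub_distrib, ← map_sum, hsum, map_add, map_add,
        hκ] at e1
      linear_combination (norm := abel) e1
    choose ψ hψ using h2
    refine hind T hT ψ (fun g h => sg_inj (L := L) ?_)
    have e1 : ∑ i ∈ T, sg L (c i g h) = ∑ i ∈ T, (B i g + act G L g (B i h) - B i (g * h)) :=
      Finset.sum_congr rfl (fun i _ => hB i g h)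
    rw [Finset.sum_sub_distrib, Finset.sum_add_distrib, ← map_sum (act G L g)] at e1
    have e2 := congrArg (act G L g) (hψ h)
    rw [act_sg, map_sub, map_sub, ← act_mul] at e2
    rw [map_sum, map_sub, map_add]
    linear_combination (norm := abel) e1 + hψ g + e2 - hψ (g * h)

end Pool.Agent.Tower13
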