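import Pool.Agent.Lib.Tower13.Kummer
import Pool.Agent.Lib.Tower92.GS2

/-! Golod-Shafarevich plus the Kummer step: many independent invariant Kummer classes. -/

open NumberField IsDedekindDomain

namespace Pool.Agent.Tower13

theorem classes (hH : HasseStmt) (K L G : Type) [Field K] [NumberField K] [Field L] [NumberField L]
    [Algebra K L] [IsTotallyReal L] [Group G] [Finite G] [MulSemiringAction G L]
    [IsGaloisGroup G K L] (hG : IsPGroup 2 G) (hunr : Algebra.FormallyUnramified (𝓞 K) (𝓞 L))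
    {d : ℕ} (hd : 1 ≤ d) (hχ : 2 ^ d ≤ Nat.card (G →* Multiplicative (ZMod 2))) :
    ∃ r, d ^ 2 < 4 * r ∧ ∃ a : Fin r → L, (∀ i, a i ≠ 0) ∧
      (∀ i (g : G), ∃ w : L, g • a i = a i * w ^ 2) ∧
      ∀ T : Finset (Fin r), T.Nonempty → ∀ (k : K) (y : L),
        ∏ i ∈ T, a i ≠ algebraMap K L k * y ^ 2 := by
  have : Fact (Nat.Prime 2) := ⟨Nat.prime_two⟩
  obtain ⟨r, hr, Φ, h1, h2⟩ := Pool.Agent.Lib.Tower92.gs_cocycle (p := 2) hG hd hχ
  refine ⟨r, hr, kummer hH K L G hG hunr (fun i => Φ (Pi.single i 1))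
    (fun i g h k => (h1 _ g h k).symm) ?_⟩
  intro T hT ψ hψ
  have h3 := h2 (∑ i ∈ T, Pi.single i 1) ⟨ψ, fun g h => by
    have := hψ g h
    rw [map_sum, Finset.sum_apply, Finset.sum_apply, this]
    ring⟩
  obtain ⟨i, hi⟩ := hT
  have h4 := congrFun h3 i
  simp [Finset.sum_apply, Pi.single_apply, hi] at h4

/-- the same for the full Galois group, with the different as unramifiedness condition -/
theorem classes' (hH : HasseStmt) (K L : Type) [Field K] [NumberField K] [Field L] [NumberField L]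
    [Algebra K L] [IsTotallyReal L] [IsGalois K L] (hG : IsPGroup 2 (L ≃ₐ[K] L))
    (hunr : differentIdeal (𝓞 K) (𝓞 L) = ⊤)
    {d : ℕ} (hd : 1 ≤ d) (hχ : 2 ^ d ≤ Nat.card ((L ≃ₐ[K] L) →* Multiplicative (ZMod 2))) :
    ∃ r, d ^ 2 < 4 * r ∧ ∃ a : Fin r → L, (∀ i, a i ≠ 0) ∧
      (∀ i (g : L ≃ₐ[K] L), ∃ w : L, g (a i) = a i * w ^ 2) ∧
      ∀ T : Finset (Fin r), T.Nonempty → ∀ (k : K) (y : L),
        ∏ i ∈ T, a i ≠ algebraMap K L k * y ^ 2 := by
  refine classes hH K L (L ≃ₐ[K] L) hG ?_ hd hχ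
  rw [Algebra.formallyUnramified_iff_forall]
  intro q
  let _ : Algebra (FractionRing (𝓞 K)) (FractionRing (𝓞 L)) := FractionRing.liftAlgebra _ _
  rw [← not_dvd_differentIdeal_iff, hunr, Ideal.dvd_iff_le, top_le_iff]
  exact q.isPrime.ne_top

end Pool.Agent.Tower13
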