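import Mathlib

/-! Abstract inflation-restriction step for 2-cocycles over a subgroup of index two. -/

namespace Pool.Agent.Tower13

section abstract
variable {Γ A : Type*} [Group Γ] [AddCommGroup A]

/-- coboundary of a 1-cochain -/
def cob (ρ : Γ → A →+ A) (b : Γ → A) (g h : Γ) : A := b g + ρ g (b h) - b (g * h)

theorem cob_coc (ρ : Γ → A →+ A) (hmul : ∀ g h a, ρ (g * h) a = ρ g (ρ h a)) (b : Γ → A)
    (g h j : Γ) :
    cob ρ b g h + cob ρ b (g * h) j = ρ g (cob ρ b h j) + cob ρ b g (h * j) := by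
  simp only [cob, map_add, map_sub, hmul, mul_assoc]
  abel

theorem cob_add (ρ : Γ → A →+ A) (b b' : Γ → A) (g h : Γ) :
    cob ρ (b + b') g h = cob ρ b g h + cob ρ b' g h := by
  simp only [cob, Pi.add_apply, map_add]
  abel

theorem step (ρ : Γ → A →+ A) (hmul : ∀ g h a, ρ (g * h) a = ρ g (ρ h a))
    (H N : Subgroup Γ) (hNH : N ≤ H) (t : Γ) (htH : t ∈ H) (htN : t ∉ N)
    (hidx : ∀ g ∈ H, g ∉ N → t⁻¹ * g ∈ N)
    (c : Γ → Γ → A)
    (hc : ∀ g h j, c g h + c (g * h) j = ρ g (c h j) + c g (h * j))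
    (b : Γ → A) (hb : ∀ n ∈ N, ∀ m ∈ N, c n m = cob ρ b n m)
    (h90 : ∀ φ : Γ → A, (∀ n ∈ N, ∀ m ∈ N, φ (n * m) = φ n + ρ n (φ m)) →
      ∃ a, ∀ n ∈ N, φ n = ρ n a - a)
    (hasse : ∀ (x : A) (B : Γ → A), (∀ g ∈ H, ρ g x = x) →
      (∀ g ∈ H, g ∉ N → ∀ h ∈ H, h ∉ N → c g h - cob ρ B g h = x) →
      (∀ n ∈ N, ∀ m ∈ N, c n m = cob ρ B n m) →
      ∃ y, (∀ n ∈ N, ρ n y = y) ∧ x = y + ρ t y) :
    ∃ B : Γ → A, ∀ g ∈ H, ∀ h ∈ H, c g h = cob ρ B g h := by
  classical
  -- elementary facts on the cosets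
  have hdec : ∀ g ∈ H, g ∉ N → ∃ m ∈ N, g = t * m := fun g hg hgN =>
    ⟨t⁻¹ * g, hidx g hg hgN, by group⟩
  have hout : ∀ m ∈ N, t * m ∉ N := fun m hm h => htN (by simpa using N.mul_mem h (N.inv_mem hm))
  have hout' : ∀ m ∈ N, ∀ g, g ∉ N → m * g ∉ N := fun m hm g hg h =>
    hg (by simpa using N.mul_mem (N.inv_mem hm) h)
  have hout'' : ∀ m ∈ N, ∀ g, g ∉ N → g * m ∉ N := fun m hm g hg h =>
    hg (by simpa using N.mul_mem h (N.inv_mem hm))
  have hconj : ∀ m ∈ N, t⁻¹ * (m * t) ∈ N := fun m hm =>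
    hidx _ (H.mul_mem (hNH hm) htH) (hout' m hm t htN)
  have htt : t * t ∈ N := by
    have h1 := hidx t⁻¹ (H.inv_mem htH) (fun h => htN (by simpa using N.inv_mem h))
    simpa using N.inv_mem h1
  have hin : ∀ g ∈ H, g ∉ N → ∀ h ∈ H, h ∉ N → g * h ∈ N := by
    intro g hg hgN h hh hhN
    obtain ⟨m, hm, rfl⟩ := hdec g hg hgN
    obtain ⟨m', hm', rfl⟩ := hdec h hh hhN
    have : t * m * (t * m') = (t * t) * (t⁻¹ * (m * t)) * m' := by group
    rw [this]
    exact N.mul_mem (N.mul_mem htt (hconj m hm)) hm'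
  -- step 1
  let b1 : Γ → A := fun g => if g ∈ N then b g else ρ t (b (t⁻¹ * g)) - c t (t⁻¹ * g)
  let c1 : Γ → Γ → A := fun g h => c g h - cob ρ b1 g h
  have hc1 : ∀ g h j, c1 g h + c1 (g * h) j = ρ g (c1 h j) + c1 g (h * j) := by
    intro g h j
    have e1 := hc g h j
    have e2 := cob_coc ρ hmul b1 g h j
    simp only [c1, map_sub]
    linear_combination (norm := abel) e1 - e2
  have h1N : ∀ n ∈ N, ∀ m ∈ N, c1 n m = 0 := by
    intro n hn m hm
    have := hb n hn m hm
    simp only [c1, cob, b1, if_pos hn, if_pos hm, if_pos (N.mul_mem hn hm)] at this ⊢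
    rw [this]; abel
  have h1R : ∀ g ∈ H, ∀ n ∈ N, c1 g n = 0 := by
    intro g hg n hn
    by_cases hgN : g ∈ N
    · exact h1N g hgN n hn
    obtain ⟨m, hm, rfl⟩ := hdec g hg hgN
    have e1 := hc t m n
    have e2 := congrArg (ρ t) (hb m hm n hn)
    have h3 : t * m * n ∉ N := hout'' n hn _ hgN
    have h4 : t⁻¹ * (t * m * n) = m * n := by group
    have h5 : t⁻¹ * (t * m) = m := by group
    simp only [c1, cob, b1, if_neg hgN, if_pos hn, if_neg h3, h4, h5, hmul, map_add, map_sub]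
      at e2 ⊢
    linear_combination (norm := abel) e1 + e2
  have h1cos : ∀ g ∈ H, ∀ h ∈ H, ∀ m ∈ N, c1 g (h * m) = c1 g h := by
    intro g hg h hh m hm
    have e1 := hc1 g h m
    rw [h1R _ (H.mul_mem hg hh) m hm, h1R h hh m hm, map_zero] at e1
    linear_combination (norm := abel) - e1
  obtain ⟨a, ha⟩ := h90 (fun n => c1 n t) (by
    intro n hn m hm
    have e1 := hc1 n m t
    have e2 : c1 n (m * t) = c1 n t := by
      have : m * t = t * (t⁻¹ * (m * t)) := by group
      rw [this]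
      exact h1cos n (hNH hn) t htH _ (hconj m hm)
    rw [h1N n hn m hm, e2] at e1
    linear_combination (norm := abel) e1)
  -- step 2
  let b2 : Γ → A := fun g => if g ∈ N then 0 else a
  let c2 : Γ → Γ → A := fun g h => c1 g h - cob ρ b2 g h
  have hc2 : ∀ g h j, c2 g h + c2 (g * h) j = ρ g (c2 h j) + c2 g (h * j) := by
    intro g h j
    have e1 := hc1 g h j
    have e2 := cob_coc ρ hmul b2 g h j
    simp only [c2, map_sub]
    linear_combination (norm := abel) e1 - e2
  have h2R : ∀ g ∈ H, ∀ n ∈ N, c2 g n = 0 := by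
    intro g hg n hn
    by_cases hgN : g ∈ N
    · simp only [c2, cob, b2, if_pos hgN, if_pos hn, if_pos (N.mul_mem hgN hn), h1R g hg n hn,
        map_zero]
      abel
    · simp only [c2, cob, b2, if_neg hgN, if_pos hn, if_neg (hout'' n hn g hgN), h1R g hg n hn,
        map_zero]
      abel
  have h2L : ∀ n ∈ N, ∀ g ∈ H, c2 n g = 0 := by
    intro n hn g hg
    by_cases hgN : g ∈ N
    · exact h2R n (hNH hn) g hgN
    · obtain ⟨m, hm, rfl⟩ := hdec g hg hgN
      have e1 := h1cos n (hNH hn) t htH m hm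
      have e2 := ha n hn
      simp only [c2, cob, b2, if_neg hgN, if_pos hn, if_neg (hout' n hn _ hgN)] at e2 ⊢
      linear_combination (norm := abel) e1 + e2
  have h2cos : ∀ g ∈ H, ∀ h ∈ H, ∀ m ∈ N, c2 g (h * m) = c2 g h := by
    intro g hg h hh m hm
    have e1 := hc2 g h m
    rw [h2R _ (H.mul_mem hg hh) m hm, h2R h hh m hm, map_zero] at e1
    linear_combination (norm := abel) - e1
  have h2x : ∀ g ∈ H, g ∉ N → ∀ h ∈ H, h ∉ N → c2 g h = c2 t t := by
    intro g hg hgN h hh hhN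
    obtain ⟨m, hm, rfl⟩ := hdec g hg hgN
    obtain ⟨m', hm', rfl⟩ := hdec h hh hhN
    have e1 := hc2 t m (t * m')
    rw [h2R t htH m hm, h2L m hm _ hh, map_zero] at e1
    have e2 : c2 t (m * (t * m')) = c2 t t := by
      have : m * (t * m') = t * ((t⁻¹ * (m * t)) * m') := by group
      rw [this]
      exact h2cos t htH t htH _ (N.mul_mem (hconj m hm) hm')
    linear_combination (norm := abel) e1 + e2
  have hfixN : ∀ n ∈ N, ρ n (c2 t t) = c2 t t := by
    intro n hn
    have e1 := hc2 n t t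
    rw [h2L n hn t htH, h2R n (hNH hn) _ htt,
      h2x _ (H.mul_mem (hNH hn) htH) (hout' n hn t htN) t htH htN] at e1
    linear_combination (norm := abel) - e1
  have hfixt : ρ t (c2 t t) = c2 t t := by
    have e1 := hc2 t t t
    rw [h2L _ htt t htH, h2R t htH _ htt] at e1
    linear_combination (norm := abel) - e1
  have hc2e : ∀ g h, c2 g h = c g h - cob ρ (b1 + b2) g h := by
    intro g h
    simp only [c2, c1, cob_add]
    abel
  obtain ⟨y, hyN, hy⟩ := hasse (c2 t t) (b1 + b2) (by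
      intro g hg
      by_cases hgN : g ∈ N
      · exact hfixN g hgN
      · obtain ⟨m, hm, rfl⟩ := hdec g hg hgN
        rw [hmul, hfixN m hm, hfixt])
    (by
      intro g hg hgN h hh hhN
      rw [← hc2e]
      exact h2x g hg hgN h hh hhN)
    (by
      intro n hn m hm
      have := h2R n (hNH hn) m hm
      rw [hc2e] at this
      exact sub_eq_zero.mp this)
  let b3 : Γ → A := fun g => if g ∈ N then 0 else y
  refine ⟨b1 + b2 + b3, fun g hg h hh => ?_⟩
  rw [cob_add]
  have e0 := hc2e g h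
  suffices h3 : c2 g h = cob ρ b3 g h by
    linear_combination (norm := abel) h3 - e0
  by_cases hgN : g ∈ N
  · by_cases hhN : h ∈ N
    · simp only [cob, b3, if_pos hgN, if_pos hhN, if_pos (N.mul_mem hgN hhN), h2R g hg h hhN,
        map_zero]
      abel
    · simp only [cob, b3, if_pos hgN, if_neg hhN, if_neg (hout' g hgN h hhN), h2L g hgN h hh,
        hyN g hgN]
      abel
  · by_cases hhN : h ∈ N
    · simp only [cob, b3, if_neg hgN, if_pos hhN, if_neg (hout'' h hhN g hgN), h2R g hg h hhN,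
        map_zero]
      abel
    · have e1 : ρ g y = ρ t y := by
        obtain ⟨m, hm, rfl⟩ := hdec g hg hgN
        rw [hmul, hyN m hm]
      simp only [cob, b3, if_neg hgN, if_neg hhN, if_pos (hin g hg hgN h hh hhN),
        h2x g hg hgN h hh hhN, e1]
      rw [hy]; abel

end abstract

end Pool.Agent.Tower13
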