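import Pool.Agent.Lib.Tower13.Split

/-! The induction over subgroups of index two. -/

open NumberField IsDedekindDomain
open scoped Pointwise

namespace Pool.Agent.Tower13

theorem unr_bot (K F L : Type*) [Field K] [Field F] [Field L] [NumberField K] [NumberField F]
    [NumberField L] [Algebra K F] [Algebra F L] [Algebra K L] [IsScalarTower K F L]
    (h : Algebra.FormallyUnramified (𝓞 K) (𝓞 L)) : Algebra.FormallyUnramified (𝓞 K) (𝓞 F) := by
  rw [Algebra.formallyUnramified_iff_forall]
  intro q
  obtain ⟨P, hP, hPq⟩ := Ideal.exists_ideal_over_prime_of_isIntegral_of_isDomain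
    (S := 𝓞 L) q.asIdeal (by
      rw [(RingHom.injective_iff_ker_eq_bot _).mp (FaithfulSMul.algebraMap_injective (𝓞 F) (𝓞 L))]
      exact bot_le)
  have : P.LiesOver q.asIdeal := ⟨hPq.symm⟩
  have : Algebra.IsUnramifiedAt (𝓞 K) P :=
    Algebra.formallyUnramified_iff_forall.mp h ⟨P, hP⟩
  exact Algebra.IsUnramifiedAt.of_liesOver (𝓞 K) q.asIdeal P

theorem val_over {F L : Type*} [Field F] [Field L] [NumberField F] [NumberField L] [Algebra F L]
    (h : Algebra.FormallyUnramified (𝓞 F) (𝓞 L)) (Q : HeightOneSpectrum (𝓞 F))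
    (w : HeightOneSpectrum (𝓞 L)) [w.asIdeal.LiesOver Q.asIdeal] (x : F) :
    w.valuation L (algebraMap F L x) = Q.valuation F x := by
  have hw := w.isPrime
  have : Algebra.IsUnramifiedAt (𝓞 F) w.asIdeal :=
    Algebra.formallyUnramified_iff_forall.mp h ⟨w.asIdeal, hw⟩
  rw [← HeightOneSpectrum.valuation_liesOver L Q w x,
    Ideal.ramificationIdx'_eq_ramificationIdx Q.asIdeal w.asIdeal Q.ne_bot,
    Ideal.ramificationIdx_eq_one, pow_one]

theorem split_aux (hH : HasseStmt) (L : Type) [Field L] [NumberField L] [IsTotallyReal L] :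
    ∀ (k : ℕ) (G K : Type) [Group G] [Finite G] [Field K] [NumberField K] [Algebra K L]
      [MulSemiringAction G L] [IsGaloisGroup G K L], Nat.card G = 2 ^ k →
      Algebra.FormallyUnramified (𝓞 K) (𝓞 L) → ∀ c : G → G → Additive Lˣ,
      (∀ w g h, ord w (c g h) = 0) →
      (∀ g h j, c g h + c (g * h) j = act G L g (c h j) + c g (h * j)) →
      ∃ B : G → Additive Lˣ, ∀ g h, c g h = cob (act G L) B g h := by
  intro k
  induction k with
  | zero =>
    intro G K _ _ _ _ _ _ _ hcard _ c _ _
    have : Subsingleton G := (Nat.card_eq_one_iff_unique.mp (by simpa using hcard)).1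
    refine ⟨fun _ => c 1 1, fun g h => ?_⟩
    obtain rfl := Subsingleton.elim g 1
    obtain rfl := Subsingleton.elim h 1
    have h1 : act G L 1 (c 1 1) = c 1 1 := uext (by simp only [act_val, one_smul])
    simp only [cob, h1]
    abel
  | succ k ih =>
    intro G K _ _ _ _ _ _ hG hcard hunr c hord hc
    have : Fact (Nat.Prime 2) := ⟨Nat.prime_two⟩
    obtain ⟨N, hN⟩ := Sylow.exists_subgroup_card_pow_prime (G := G) 2 (n := k)
      (by rw [hcard]; exact pow_dvd_pow 2 (Nat.le_succ k))
    have hidx : N.index = 2 := by
      have h1 := N.card_mul_index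
      rw [hN, hcard, pow_succ] at h1
      exact Nat.eq_of_mul_eq_mul_left (by positivity) h1
    obtain ⟨t, htN⟩ : ∃ t, t ∉ N := by
      by_contra h0
      push Not at h0
      have : N = ⊤ := by rwa [Subgroup.eq_top_iff']
      rw [this, Subgroup.index_top] at hidx
      omega
    have hfaith : FaithfulSMul G L := hG.faithful
    have hcomm : SMulCommClass G K L := hG.commutes
    let F : IntermediateField K L := FixedPoints.intermediateField N
    have hNF : IsGaloisGroup N F L := IsGaloisGroup.subgroup G K L N
    have hunrF : Algebra.FormallyUnramified (𝓞 F) (𝓞 L) :=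
      Algebra.FormallyUnramified.of_restrictScalars (𝓞 K) (𝓞 F) (𝓞 L)
    have hunrK : Algebra.FormallyUnramified (𝓞 K) (𝓞 F) := unr_bot K F L hunr
    obtain ⟨b0, hb0⟩ := ih N F hN hunrF (fun g h => c g h) (fun w g h => hord w g h)
      (fun g h j => hc g h j)
    classical
    have hfin : Module.finrank K F = 2 := by
      have h1 := Module.finrank_mul_finrank K F L
      rw [← IsGaloisGroup.card_eq_finrank G K L, ← IsGaloisGroup.card_eq_finrank N F L, hN, hcard,
        pow_succ'] at h1
      exact Nat.eq_of_mul_eq_mul_right (by positivity) h1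
    have : Algebra.IsQuadraticExtension K F := ⟨hfin⟩
    have hTR : IsTotallyReal F := IsTotallyReal.of_algebra F L
    let s : F ≃ₐ[K] F := (MulSemiringAction.toAlgEquiv K L t).restrictNormal F
    have hs : ∀ z : F, algebraMap F L (s z) = t • algebraMap F L z := fun z =>
      AlgEquiv.restrictNormal_commutes _ F z
    have hs1 : s ≠ 1 := by
      intro h1
      apply htN
      rw [← IsGaloisGroup.fixingSubgroup_fixedPoints G K L N, mem_fixingSubgroup_iff]
      intro y hy
      have := hs ⟨y, hy⟩
      rw [h1] at this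
      exact this.symm
    obtain ⟨B, hB⟩ := step (act G L) act_mul ⊤ N le_top t trivial htN
      (fun g _ hg => by
        rw [Subgroup.mul_mem_iff_of_index_two hidx, N.inv_mem_iff]
        exact iff_of_false htN hg)
      c hc (fun g => if h : g ∈ N then b0 ⟨g, h⟩ else 0)
      (fun n hn m hm => by
        have := hb0 ⟨n, hn⟩ ⟨m, hm⟩
        simp only [cob, dif_pos hn, dif_pos hm, dif_pos (N.mul_mem hn hm)] at this ⊢
        exact this)
      (fun φ hφ => h90 N φ hφ)
      (by
        intro x B hx hxB hNB
        obtain ⟨x0, hx0⟩ := hG.isInvariant.isInvariant ((Additive.toMul x : Lˣ) : L) (fun g => by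
          rw [← act_val, hx g trivial])
        have hx0ne : x0 ≠ 0 := by
          rintro rfl
          exact Units.ne_zero _ (by rw [← hx0, map_zero])
        obtain ⟨y, hy⟩ := hH K F s hfin hs1 hTR hunrK x0 hx0ne (by
          intro Q hQ
          have hQm := Q.isMaximal
          obtain ⟨P, hP, hPQ⟩ := Ideal.exists_maximal_ideal_liesOver_of_isIntegral
            (S := 𝓞 L) Q.asIdeal
          have hPne : P ≠ ⊥ := Ideal.ne_bot_of_liesOver_of_ne_bot Q.ne_bot P
          let w : HeightOneSpectrum (𝓞 L) := ⟨P, hP.isPrime, hPne⟩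
          have : w.asIdeal.LiesOver Q.asIdeal := hPQ
          let P' : Ideal (𝓞 L) := P.comap (MulSemiringAction.toRingHom G (𝓞 L) t)
          have hP'p : P'.IsPrime := Ideal.comap_isPrime _ _
          have hP'Q : P'.LiesOver Q.asIdeal := by
            constructor
            refine hQm.eq_of_le (Ideal.IsPrime.ne_top inferInstance) ?_
            intro z hz
            have h1 : algebraMap (𝓞 F) (𝓞 L) (s • z) ∈ P := by
              have := hQ z hz
              rwa [hPQ.over] at this
            have h2 : algebraMap (𝓞 F) (𝓞 L) (s • z) = t • algebraMap (𝓞 F) (𝓞 L) z :=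
              Subtype.ext (hs z)
            rw [h2] at h1
            exact h1
          have : IsGaloisGroup N (𝓞 F) (𝓞 L) := IsGaloisGroup.of_isFractionRing N (𝓞 F) (𝓞 L) F L
          obtain ⟨n, hn⟩ := Ideal.exists_smul_eq_of_isGaloisGroup Q.asIdeal P' P N
          have hu : ∀ z, (t * (n : G)⁻¹) • z ∈ w.asIdeal ↔ z ∈ w.asIdeal := by
            intro z
            have h1 : z ∈ P ↔ n⁻¹ • z ∈ P' := by
              rw [← hn, Ideal.mem_pointwise_smul_iff_inv_smul_mem]
            rw [mul_smul]
            exact h1.symm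
          have huN : t * (n : G)⁻¹ ∉ N := fun h =>
            htN (by simpa using N.mul_mem h n.2)
          have hev := even_ord w N (t * (n : G)⁻¹) hu (Subgroup.mul_self_mem_of_index_two hidx _)
            c (hord w) B x (hxB _ trivial huN _ trivial huN) hNB
          rwa [ord_apply, ← hx0, IsScalarTower.algebraMap_apply K F L, val_over hunrF Q w] at hev)
        have hy' : ((Additive.toMul x : Lˣ) : L) = algebraMap F L y * t • algebraMap F L y := by
          rw [← hx0, IsScalarTower.algebraMap_apply K F L, hy, map_mul, hs]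
        have hy0 : algebraMap F L y ≠ 0 := by
          intro h0
          rw [h0, zero_mul] at hy'
          exact Units.ne_zero _ hy'
        refine ⟨Additive.ofMul (Units.mk0 _ hy0), fun n hn => uext ?_, uext ?_⟩
        · simp only [act_val, toMul_ofMul, Units.val_mk0]
          exact y.2 ⟨n, hn⟩
        · simp only [toMul_add, Units.val_mul, act_val, toMul_ofMul, Units.val_mk0]
          exact hy')
    exact ⟨B, fun g h => hB g trivial h trivial⟩

end Pool.Agent.Tower13
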