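import Pool.Agent.Lib.Tower13.Coc

/-! Unit valued 2-cocycles of an unramified 2-extension split in the multiplicative group. -/

open NumberField IsDedekindDomain

namespace Pool.Agent.Tower13

/-- The Hasse norm theorem for unramified quadratic extensions of totally real fields. -/
def HasseStmt : Prop :=
  ∀ (K F : Type) [Field K] [Field F] [NumberField K] [NumberField F] [Algebra K F] [IsGalois K F]
    (s : F ≃ₐ[K] F), Module.finrank K F = 2 → s ≠ 1 → IsTotallyReal F →
    Algebra.FormallyUnramified (𝓞 K) (𝓞 F) → ∀ x : K, x ≠ 0 →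
    (∀ Q : HeightOneSpectrum (𝓞 F), (∀ z ∈ Q.asIdeal, s • z ∈ Q.asIdeal) →
       Even (WithZero.log (Q.valuation F (algebraMap K F x)))) →
    ∃ y : F, algebraMap K F x = y * s y

section defs
variable (G L : Type*) [Group G] [Field L] [MulSemiringAction G L]

/-- the action on the unit group, written additively -/
def act (g : G) : Additive Lˣ →+ Additive Lˣ :=
  MonoidHom.toAdditive (Units.map (MulSemiringAction.toRingHom G L g : L →* L))

variable {G L}

@[simp] theorem act_val (g : G) (x : Additive Lˣ) :
    ((Additive.toMul (act G L g x) : Lˣ) : L) = g • ((Additive.toMul x : Lˣ) : L) := rfl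

theorem uext {x y : Additive Lˣ}
    (h : ((Additive.toMul x : Lˣ) : L) = ((Additive.toMul y : Lˣ) : L)) : x = y :=
  Additive.toMul.injective (Units.ext h)

theorem act_mul (g h : G) (x : Additive Lˣ) : act G L (g * h) x = act G L g (act G L h x) :=
  uext (by simp only [act_val, mul_smul])

/-- Hilbert 90 for a finite subgroup acting faithfully -/
theorem h90 [Finite G] [FaithfulSMul G L] (N : Subgroup G) (φ : G → Additive Lˣ)
    (hφ : ∀ n ∈ N, ∀ m ∈ N, φ (n * m) = φ n + act G L n (φ m)) :
    ∃ a, ∀ n ∈ N, φ n = act G L n a - a := by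
  classical
  have := Fintype.ofFinite N
  let χ : N → (L →* L) := fun n => (MulSemiringAction.toRingHom G L (n : G) : L →* L)
  have hχ : Function.Injective χ := by
    intro n m h
    apply Subtype.ext
    apply FaithfulSMul.eq_of_smul_eq_smul (α := L)
    intro x
    exact DFunLike.congr_fun h x
  have hli : LinearIndependent L (fun n : N => (χ n : L → L)) :=
    (linearIndependent_monoidHom L L).comp χ hχ
  let f : N → L := fun n => ((Additive.toMul (φ n) : Lˣ) : L)
  have hne : ∑ n : N, f n • (χ n : L → L) ≠ 0 := by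
    intro h0
    have := Fintype.linearIndependent_iff.mp hli f h0 1
    exact Units.ne_zero _ this
  obtain ⟨x, hx⟩ := Function.ne_iff.mp hne
  have hx' : ∑ n : N, f n * (n : G) • x ≠ 0 := by
    simpa [Finset.sum_apply, χ] using hx
  refine ⟨-Additive.ofMul (Units.mk0 _ hx'), fun n hn => ?_⟩
  have key : f ⟨n, hn⟩ * n • (∑ m : N, f m * (m : G) • x) = ∑ m : N, f m * (m : G) • x := by
    rw [Finset.smul_sum, Finset.mul_sum]
    refine Fintype.sum_equiv (Equiv.mulLeft (⟨n, hn⟩ : N)) _ _ (fun m => ?_)
    have h1 := congrArg (fun z => ((Additive.toMul z : Lˣ) : L)) (hφ n hn m m.2)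
    simp only [toMul_add, Units.val_mul, act_val] at h1
    simp only [Equiv.coe_mulLeft, f, Subgroup.coe_mul, h1, smul_mul', mul_smul]
    ring
  have h2 : φ n + act G L n (Additive.ofMul (Units.mk0 _ hx')) = Additive.ofMul (Units.mk0 _ hx') :=
    uext (by simpa only [toMul_add, Units.val_mul, act_val, toMul_ofMul, Units.val_mk0] using key)
  rw [map_neg]
  linear_combination (norm := abel) h2

end defs

section ord
variable {L : Type*} [Field L] [NumberField L]

/-- the order at a prime, on the additive version of the unit group -/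
noncomputable def ord (w : HeightOneSpectrum (𝓞 L)) : Additive Lˣ →+ ℤ where
  toFun x := WithZero.log (w.valuation L ((Additive.toMul x : Lˣ) : L))
  map_zero' := by simp
  map_add' x y := by
    simp only [toMul_add, Units.val_mul, map_mul]
    exact WithZero.log_mul (by simp) (by simp)

theorem ord_apply (w : HeightOneSpectrum (𝓞 L)) (x : Additive Lˣ) :
    ord w x = WithZero.log (w.valuation L ((Additive.toMul x : Lˣ) : L)) := rfl

variable {G : Type*} [Group G] [MulSemiringAction G L]

theorem intVal_le (w : HeightOneSpectrum (𝓞 L)) (g : G)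
    (hg : ∀ z ∈ w.asIdeal, g • z ∈ w.asIdeal) (z : 𝓞 L) :
    w.intValuation (g • z) ≤ w.intValuation z := by
  rcases eq_or_ne z 0 with rfl | hz
  · simp
  have h1 : Ideal.map (MulSemiringAction.toRingHom G (𝓞 L) g) w.asIdeal ≤ w.asIdeal := by
    rw [Ideal.map_le_iff_le_comap]
    intro y hy
    exact hg y hy
  rw [w.intValuation_eq_exp_neg_multiplicity hz, w.intValuation_le_pow_iff_mem]
  have h2 : z ∈ w.asIdeal ^ multiplicity w.asIdeal (Ideal.span {z}) := by
    rw [← w.intValuation_le_pow_iff_mem, w.intValuation_eq_exp_neg_multiplicity hz]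
  have h3 := Ideal.mem_map_of_mem (MulSemiringAction.toRingHom G (𝓞 L) g) h2
  rw [Ideal.map_pow] at h3
  exact Ideal.pow_right_mono h1 _ h3

theorem val_fix (w : HeightOneSpectrum (𝓞 L)) (g : G)
    (hg : ∀ z, g • z ∈ w.asIdeal ↔ z ∈ w.asIdeal) (x : L) :
    w.valuation L (g • x) = w.valuation L x := by
  have h1 : ∀ z : 𝓞 L, w.intValuation (g • z) = w.intValuation z := by
    intro z
    refine le_antisymm (intVal_le w g (fun y hy => (hg y).mpr hy) z) ?_
    have := intVal_le w g⁻¹ (fun y hy => (hg _).mp (by simpa using hy)) (g • z)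
    simpa using this
  obtain ⟨a, b, _, rfl⟩ := IsFractionRing.div_surjective (A := 𝓞 L) x
  have h2 : ∀ z : 𝓞 L, g • (algebraMap (𝓞 L) L z) = algebraMap (𝓞 L) L (g • z) := fun z => rfl
  rw [smul_div₀', h2, h2]
  simp only [map_div₀, HeightOneSpectrum.valuation_of_algebraMap, h1]

theorem ord_fix (w : HeightOneSpectrum (𝓞 L)) (g : G)
    (hg : ∀ z, g • z ∈ w.asIdeal ↔ z ∈ w.asIdeal) (x : Additive Lˣ) :
    ord w (act G L g x) = ord w x := by
  simp only [ord_apply, act_val, val_fix w g hg]

/-- parity of the order of the norm class at a prime fixed by an element outside `N` -/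
theorem even_ord [Finite G] (w : HeightOneSpectrum (𝓞 L)) (N : Subgroup G) (u : G)
    (hu : ∀ z, u • z ∈ w.asIdeal ↔ z ∈ w.asIdeal) (huu : u * u ∈ N)
    (c : G → G → Additive Lˣ) (hc : ∀ g h, ord w (c g h) = 0) (B : G → Additive Lˣ)
    (x : Additive Lˣ) (hx : c u u - cob (act G L) B u u = x)
    (hB : ∀ n ∈ N, ∀ m ∈ N, c n m = cob (act G L) B n m) : Even (ord w x) := by
  set n := u * u with hn
  have hfix : ∀ z, n • z ∈ w.asIdeal ↔ z ∈ w.asIdeal := by
    intro z
    rw [hn, mul_smul, hu, hu]
  have hadd : ∀ m ∈ N, ord w (B (n * m)) = ord w (B n) + ord w (B m) := by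
    intro m hm
    have h1 := congrArg (ord w) (hB n huu m hm)
    simp only [cob, map_add, map_sub, hc, ord_fix w n hfix] at h1
    linarith
  have hone : ord w (B 1) = 0 := by
    have := hadd 1 N.one_mem
    rw [mul_one] at this
    linarith
  have hpow : ∀ k : ℕ, ord w (B (n ^ k)) = k * ord w (B n) := by
    intro k
    induction k with
    | zero => simpa using hone
    | succ k ih =>
      rw [pow_succ', hadd _ (N.pow_mem huu k), ih]
      push_cast
      ring
  have h0 : ord w (B n) = 0 := by
    have h1 := hpow (orderOf n)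
    rw [pow_orderOf_eq_one, hone] at h1
    have h2 : (orderOf n : ℤ) ≠ 0 := by
      exact_mod_cast (orderOf_pos n).ne'
    exact (mul_eq_zero.mp h1.symm).resolve_left h2
  have h1 := congrArg (ord w) hx
  simp only [cob, map_add, map_sub, hc, ord_fix w u hu, ← hn, h0] at h1
  exact ⟨-ord w (B u), by linarith⟩

end ord

end Pool.Agent.Tower13
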